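import Pool.Agent.Run7.h325.RSI.Stm

/-!
# Piece BMO of project RSI (helper325)
-/

set_option autoImplicit false

namespace Pool.Agent.Run7.h416.RSI

open MeasureTheory Filter Topology Metric
open Pool.Agent.Run7.h325.RSI

noncomputable section

/-- positive part of the logarithm of `ρ / t` -/
def HR (ρ t : ℝ) : ℝ := max 0 (Real.log (ρ / t))

theorem HR_nonneg (ρ t : ℝ) : 0 ≤ HR ρ t := le_max_left _ _

theorem bb_eq (x : E2) : bb x = HR (1 / 4) (infDist x Zf) := by
  unfold bb HR
  rw [div_div]

theorem HR_meas (ρ : ℝ) : Measurable (HR ρ) := by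
  unfold HR
  exact measurable_const.max (Real.measurable_log.comp (measurable_const.div measurable_id))

theorem bb_meas : Measurable bb := by
  have h : bb = fun x => HR (1 / 4) (infDist x Zf) := funext bb_eq
  rw [h]
  exact (HR_meas _).comp (continuous_infDist_pt Zf).measurable

theorem HR_zero {ρ t : ℝ} (hρ : 0 < ρ) (h : ρ ≤ t) : HR ρ t = 0 := by
  unfold HR
  apply max_eq_left
  apply Real.log_nonpos
  · have : 0 < t := lt_of_lt_of_le hρ h
    positivity
  · rw [div_le_one (lt_of_lt_of_le hρ h)]
    exact h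

theorem mul_HR {ρ t : ℝ} (hρ : 0 < ρ) (ht : 0 < t) : t * HR ρ t ≤ ρ := by
  unfold HR
  have h1 : Real.log (ρ / t) ≤ ρ / t := by
    have := Real.log_le_sub_one_of_pos (div_pos hρ ht)
    linarith
  have h2 : max 0 (Real.log (ρ / t)) ≤ ρ / t := max_le (by positivity) h1
  calc t * max 0 (Real.log (ρ / t)) ≤ t * (ρ / t) := mul_le_mul_of_nonneg_left h2 ht.le
    _ = ρ := by field_simp

theorem HR_lip (ρ : ℝ) {s t : ℝ} (hρ : 0 < ρ) (hs : 0 < s) (ht : 0 < t) :
    |HR ρ s - HR ρ t| ≤ |Real.log (t / s)| := by
  unfold HR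
  rw [max_comm 0, max_comm 0]
  refine (abs_max_sub_max_le_abs _ _ _).trans (le_of_eq ?_)
  rw [Real.log_div hρ.ne' hs.ne', Real.log_div hρ.ne' ht.ne', Real.log_div ht.ne' hs.ne']
  congr 1
  ring

/-- the integral of the radial function -/
theorem HR_int (hR : S_RAD) {ρ : ℝ} (hρ : 0 < ρ) (a : E2) :
    Integrable (fun y : E2 => HR ρ ‖y - a‖) ∧ ∫ y : E2, HR ρ ‖y - a‖ ≤ 2 * Real.pi * ρ ^ 2 := by
  obtain ⟨h1, h2, -⟩ := hR
  have hle : ∀ r ∈ Set.Ioi (0 : ℝ), r * HR ρ r ≤ (Set.Ioo 0 ρ).indicator (fun _ => ρ) r := by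
    intro r hr
    by_cases h : r ∈ Set.Ioo 0 ρ
    · rw [Set.indicator_of_mem h]
      exact mul_HR hρ hr
    · rw [Set.indicator_of_notMem h]
      have h3 : ρ ≤ r := by
        by_contra h4
        exact h ⟨hr, not_le.1 h4⟩
      rw [HR_zero hρ h3, mul_zero]
  have hind : Integrable ((Set.Ioo 0 ρ).indicator (fun _ : ℝ => ρ)) := by
    rw [integrable_indicator_iff measurableSet_Ioo]
    exact integrableOn_const (by simp)
  have hint : IntegrableOn (fun r => r * HR ρ r) (Set.Ioi (0 : ℝ)) := by
    refine Integrable.mono' hind.integrableOn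
      (measurable_id.mul (HR_meas ρ)).aestronglyMeasurable ?_
    filter_upwards [ae_restrict_mem measurableSet_Ioi] with r hr
    rw [Real.norm_eq_abs, abs_of_nonneg (mul_nonneg (le_of_lt hr) (HR_nonneg _ _))]
    exact hle r hr
  have hI : Integrable (fun y : E2 => HR ρ ‖y‖) := (h2 (HR ρ)).2 hint
  refine ⟨hI.comp_sub_right a, ?_⟩
  rw [integral_sub_right_eq_self (fun y : E2 => HR ρ ‖y‖) a, h1 (HR ρ)]
  have h3 : ∫ r in Set.Ioi (0 : ℝ), r * HR ρ r ≤ ρ ^ 2 := by
    calc ∫ r in Set.Ioi (0 : ℝ), r * HR ρ r
        ≤ ∫ r in Set.Ioi (0 : ℝ), (Set.Ioo 0 ρ).indicator (fun _ => ρ) r :=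
          setIntegral_mono_on hint hind.integrableOn measurableSet_Ioi hle
      _ = ∫ r in Set.Ioo 0 ρ, ρ := by
          rw [setIntegral_indicator measurableSet_Ioo]
          congr 2
          ext r
          simp only [Set.mem_inter_iff, Set.mem_Ioi, Set.mem_Ioo]
          constructor
          · exact fun h => h.2
          · exact fun h => ⟨h.1, h⟩
      _ = ρ ^ 2 := by
          rw [setIntegral_const, measureReal_def, Real.volume_Ioo, sub_zero,
            ENNReal.toReal_ofReal hρ.le, smul_eq_mul]
          ring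
  have := Real.pi_pos
  nlinarith

theorem ze_dist {p q : ℤ × ℤ} (h : ze p ≠ ze q) : 1 ≤ ‖ze p - ze q‖ := by
  have hpq : p ≠ q := fun h1 => h (by rw [h1])
  have h1 : ‖ze p - ze q‖ ^ 2 = ((p.1 : ℝ) - q.1) ^ 2 + ((p.2 : ℝ) - q.2) ^ 2 := by
    rw [EuclideanSpace.norm_sq_eq, Fin.sum_univ_two]
    simp [ze, sq_abs]
  have h2 : (1 : ℝ) ≤ ((p.1 : ℝ) - q.1) ^ 2 + ((p.2 : ℝ) - q.2) ^ 2 := by
    have h3 : (1 : ℤ) ≤ (p.1 - q.1) ^ 2 + (p.2 - q.2) ^ 2 := by
      by_contra hcon
      have h4 : (p.1 - q.1) ^ 2 + (p.2 - q.2) ^ 2 ≤ 0 := by omega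
      have h5 : p.1 - q.1 = 0 := by nlinarith [sq_nonneg (p.1 - q.1), sq_nonneg (p.2 - q.2)]
      have h6 : p.2 - q.2 = 0 := by nlinarith [sq_nonneg (p.1 - q.1), sq_nonneg (p.2 - q.2)]
      exact hpq (Prod.ext (by omega) (by omega))
    exact_mod_cast h3
  rw [← h1] at h2
  nlinarith [norm_nonneg (ze p - ze q)]

/-- domination on a ball -/
theorem dom (hL : S_LAT) (hC : S_CNT) (x : E2) {R : ℝ} (hR : 1 / 16 ≤ R) :
    ∃ s : Finset (ℤ × ℤ), (s.card : ℝ) ≤ 400 * (R + 3 / 16) ^ 2 ∧
      ∀ y ∈ ball x R, bb y ≤ ∑ p ∈ s, HR (1 / 4) ‖y - ze p‖ := by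
  obtain ⟨⟨s, hs, hcard⟩, -⟩ := hC x (R + 3 / 16) (by linarith)
  refine ⟨s, hcard, ?_⟩
  intro y hy
  have hnn : 0 ≤ ∑ p ∈ s, HR (1 / 4) ‖y - ze p‖ := Finset.sum_nonneg fun p _ => HR_nonneg _ _
  rw [bb_eq]
  rcases le_or_gt (1 / 4) (infDist y Zf) with h | h
  · rw [HR_zero (by norm_num) h]
    exact hnn
  · obtain ⟨a, ha, hd⟩ := (infDist_lt_iff hL.1).1 h
    rw [dist_eq_norm] at hd
    rw [(hL.2.2.1 a ha y hd.le).1]
    obtain ⟨p, rfl⟩ := ha
    have hp : p ∈ s := by
      apply hs
      rw [mem_ball, dist_comm, dist_eq_norm] at hy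
      have h1 : ‖x - ze p‖ ≤ ‖x - y‖ + ‖y - ze p‖ := by
        have h2 : x - ze p = (x - y) + (y - ze p) := by abel
        rw [h2]
        exact norm_add_le _ _
      linarith
    exact Finset.single_le_sum (f := fun p => HR (1 / 4) ‖y - ze p‖)
      (fun p _ => HR_nonneg _ _) hp

theorem bb_nonneg (x : E2) : 0 ≤ bb x := le_max_left _ _

theorem bb_int (hRAD : S_RAD) (hL : S_LAT) (hC : S_CNT) (x : E2) {R : ℝ} (hR : 1 / 16 ≤ R) :
    IntegrableOn bb (ball x R) ∧ ∫ y in ball x R, bb y ≤ 800 * (Real.pi * R ^ 2) := by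
  obtain ⟨s, hcard, hs⟩ := dom hL hC x hR
  have hsum : Integrable (fun y : E2 => ∑ p ∈ s, HR (1 / 4) ‖y - ze p‖) :=
    integrable_finsetSum _ fun p _ => (HR_int hRAD (by norm_num) (ze p)).1
  have hint : IntegrableOn bb (ball x R) := by
    refine Integrable.mono' hsum.integrableOn bb_meas.aestronglyMeasurable ?_
    filter_upwards [ae_restrict_mem measurableSet_ball] with y hy
    rw [Real.norm_eq_abs, abs_of_nonneg (bb_nonneg y)]
    exact hs y hy
  refine ⟨hint, ?_⟩
  have hpi := Real.pi_pos
  calc ∫ y in ball x R, bb y ≤ ∫ y in ball x R, ∑ p ∈ s, HR (1 / 4) ‖y - ze p‖ :=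
        setIntegral_mono_on hint hsum.integrableOn measurableSet_ball hs
    _ ≤ ∫ y, ∑ p ∈ s, HR (1 / 4) ‖y - ze p‖ :=
        setIntegral_le_integral hsum
          (Eventually.of_forall fun y => Finset.sum_nonneg fun p _ => HR_nonneg _ _)
    _ = ∑ p ∈ s, ∫ y, HR (1 / 4) ‖y - ze p‖ :=
        integral_finsetSum _ fun p _ => (HR_int hRAD (by norm_num) (ze p)).1
    _ ≤ ∑ p ∈ s, 2 * Real.pi * (1 / 4) ^ 2 :=
        Finset.sum_le_sum fun p _ => (HR_int hRAD (by norm_num) (ze p)).2
    _ = s.card * (2 * Real.pi * (1 / 4) ^ 2) := by rw [Finset.sum_const, nsmul_eq_mul]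
    _ ≤ (400 * (R + 3 / 16) ^ 2) * (2 * Real.pi * (1 / 4) ^ 2) :=
        mul_le_mul_of_nonneg_right hcard (by positivity)
    _ ≤ (400 * (4 * R) ^ 2) * (2 * Real.pi * (1 / 4) ^ 2) := by
        gcongr
        linarith
    _ = 800 * (Real.pi * R ^ 2) := by ring

theorem avg_bound {B : Set E2} {g : E2 → ℝ} (hv : 0 < volume.real B)
    (hfin : volume B ≠ ⊤) (hg : IntegrableOn g B) (c K : ℝ)
    (h : ∫ y in B, |g y - c| ≤ K * volume.real B) :
    (⨍ y in B, |g y - ⨍ z in B, g z|) ≤ 2 * K := by
  set A := ⨍ z in B, g z with hA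
  set v := volume.real B with hvdef
  have hcst : ∀ k : ℝ, IntegrableOn (fun _ : E2 => k) B := fun k => integrableOn_const hfin
  have hgc : IntegrableOn (fun y => |g y - c|) B := (hg.sub (hcst c)).abs
  have hAv : A * v = ∫ y in B, g y := by
    rw [hA, setAverage_eq, smul_eq_mul, ← hvdef]
    field_simp
  have h1 : |c - A| * v ≤ K * v := by
    have h2 : (A - c) * v = ∫ y in B, (g y - c) := by
      rw [integral_sub hg (hcst c), setIntegral_const, ← hvdef, smul_eq_mul, sub_mul, hAv]
      ring
    calc |c - A| * v = |(A - c) * v| := by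
          rw [abs_mul, abs_of_pos hv, abs_sub_comm]
      _ = |∫ y in B, (g y - c)| := by rw [h2]
      _ ≤ ∫ y in B, |g y - c| := by
          have := norm_integral_le_integral_norm (μ := volume.restrict B) (fun y => g y - c)
          simpa only [Real.norm_eq_abs] using this
      _ ≤ K * v := h
  have h3 : ∫ y in B, |g y - A| ≤ 2 * K * v := by
    calc ∫ y in B, |g y - A| ≤ ∫ y in B, (|g y - c| + |c - A|) := by
          refine integral_mono (hg.sub (hcst A)).abs (hgc.add (hcst _)) ?_
          intro y
          have h4 : g y - A = (g y - c) + (c - A) := by ring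
          show |g y - A| ≤ |g y - c| + |c - A|
          rw [h4]
          exact abs_add_le _ _
      _ = (∫ y in B, |g y - c|) + |c - A| * v := by
          rw [integral_add hgc (hcst _), setIntegral_const, ← hvdef, smul_eq_mul, mul_comm v]
      _ ≤ 2 * K * v := by linarith
  rw [setAverage_eq, smul_eq_mul, ← hvdef]
  calc v⁻¹ * ∫ y in B, |g y - A| ≤ v⁻¹ * (2 * K * v) :=
        mul_le_mul_of_nonneg_left h3 (by positivity)
    _ = 2 * K := by field_simp

theorem t_BMO (hL : S_LAT) (hC : S_CNT) (hRAD : S_RAD) : S_BMO := by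
  have hpi := Real.pi_pos
  have hvol : ∀ (x : E2) (r : ℝ), 0 ≤ r → volume.real (ball x r) = Real.pi * r ^ 2 :=
    fun x r hr => hRAD.2.2 x r hr
  have hbig : ∀ (x : E2) (r : ℝ), IntegrableOn bb (ball x r) := by
    intro x r
    exact (bb_int hRAD hL hC x (R := max r 1) (le_max_of_le_right (by norm_num))).1.mono_set
      (ball_subset_ball (le_max_left _ _))
  refine ⟨?_, 1600, ?_⟩
  · intro x
    exact ⟨ball x 1, ball_mem_nhds x one_pos, hbig x 1⟩
  · intro x r hr
    have hv : volume.real (ball x r) = Real.pi * r ^ 2 := hvol x r hr.le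
    have hv0 : 0 < volume.real (ball x r) := by
      rw [hv]
      positivity
    have hfin : volume (ball x r) ≠ ⊤ := measure_ball_lt_top.ne
    have key : ∃ c : ℝ, ∫ y in ball x r, |bb y - c| ≤ 800 * volume.real (ball x r) := by
      rcases le_or_gt (1 / 16) r with h | h
      · refine ⟨0, ?_⟩
        have h1 := (bb_int hRAD hL hC x h).2
        rw [hv]
        refine le_trans (le_of_eq ?_) h1
        refine setIntegral_congr_fun measurableSet_ball fun y _ => ?_
        simp only [sub_zero, abs_of_nonneg (bb_nonneg y)]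
      · by_cases hfar : ∀ y ∈ ball x r, 1 / 4 ≤ infDist y Zf
        · refine ⟨0, ?_⟩
          have h1 : ∫ y in ball x r, |bb y - 0| = ∫ y in ball x r, (0 : ℝ) := by
            refine setIntegral_congr_fun measurableSet_ball fun y hy => ?_
            simp only [bb_eq, HR_zero (by norm_num) (hfar y hy), sub_zero, abs_zero]
          rw [h1, integral_zero]
          positivity
        · push Not at hfar
          obtain ⟨y₀, hy₀, hd₀⟩ := hfar
          obtain ⟨a, ha, hd⟩ := (infDist_lt_iff hL.1).1 hd₀
          rw [dist_eq_norm] at hd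
          -- the function on the ball
          have hloc : ∀ y ∈ ball x r, bb y = HR (1 / 4) ‖y - a‖ := by
            intro y hy
            rw [mem_ball, dist_eq_norm] at hy hy₀
            rcases le_or_gt ‖y - a‖ (1 / 4) with h1 | h1
            · rw [bb_eq, (hL.2.2.1 a ha y h1).1]
            · rw [HR_zero (by norm_num) h1.le, bb_eq]
              apply HR_zero (by norm_num)
              by_contra hcon
              push Not at hcon
              obtain ⟨a', ha', hd'⟩ := (infDist_lt_iff hL.1).1 hcon
              rw [dist_eq_norm] at hd'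
              have hne : a' ≠ a := by
                rintro rfl
                linarith
              obtain ⟨p, rfl⟩ := ha
              obtain ⟨p', rfl⟩ := ha'
              have h2 := ze_dist hne
              have h3 : ze p' - ze p = -(y - ze p') + (y - x) - (y₀ - x) + (y₀ - ze p) := by abel
              have h4 : ‖ze p' - ze p‖ ≤ ‖y - ze p'‖ + ‖y - x‖ + ‖y₀ - x‖ + ‖y₀ - ze p‖ := by
                rw [h3]
                refine (norm_add_le _ _).trans ?_
                refine add_le_add_left ((norm_sub_le _ _).trans ?_) _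
                refine add_le_add_left ((norm_add_le _ _).trans ?_) _
                rw [norm_neg]
              linarith
          have hmem : ∀ y ∈ ball x r, ‖y - x‖ < r := by
            intro y hy
            rwa [mem_ball, dist_eq_norm] at hy
          rcases le_or_gt (2 * r) ‖x - a‖ with h1 | h1
          · -- far atom
            refine ⟨HR (1 / 4) ‖x - a‖, ?_⟩
            have hle : ∀ y ∈ ball x r, |bb y - HR (1 / 4) ‖x - a‖| ≤ 1 := by
              intro y hy
              rw [hloc y hy]
              have h2 := hmem y hy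
              have h3 : ‖x - a‖ - ‖y - x‖ ≤ ‖y - a‖ := by
                have h4 : x - a = (y - a) - (y - x) := by abel
                have h5 := norm_sub_le (y - a) (y - x)
                rw [← h4] at h5
                linarith
              have h4 : ‖y - a‖ ≤ ‖x - a‖ + ‖y - x‖ := by
                have h5 : y - a = (x - a) + (y - x) := by abel
                rw [h5]
                exact norm_add_le _ _
              have hd1 : 0 < ‖x - a‖ := by linarith
              have hd2 : 0 < ‖y - a‖ := by linarith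
              refine (HR_lip (1 / 4) (by norm_num) hd2 hd1).trans ?_
              rw [abs_le]
              constructor
              · have h6 := Real.log_le_sub_one_of_pos (div_pos hd2 hd1)
                have h7 : Real.log (‖x - a‖ / ‖y - a‖) = -Real.log (‖y - a‖ / ‖x - a‖) := by
                  rw [← Real.log_inv, inv_div]
                have h8 : ‖y - a‖ / ‖x - a‖ ≤ 2 := by
                  rw [div_le_iff₀ hd1]
                  linarith
                rw [h7]
                linarith
              · have h6 := Real.log_le_sub_one_of_pos (div_pos hd1 hd2)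
                have h8 : ‖x - a‖ / ‖y - a‖ ≤ 2 := by
                  rw [div_le_iff₀ hd2]
                  linarith
                linarith
            have hcst : ∀ k : ℝ, IntegrableOn (fun _ : E2 => k) (ball x r) :=
              fun k => integrableOn_const hfin
            calc ∫ y in ball x r, |bb y - HR (1 / 4) ‖x - a‖| ≤ ∫ y in ball x r, (1 : ℝ) :=
                  setIntegral_mono_on ((hbig x r).sub (hcst _)).abs (hcst 1) measurableSet_ball hle
              _ = volume.real (ball x r) := by rw [setIntegral_const, smul_eq_mul, mul_one]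
              _ ≤ 800 * volume.real (ball x r) := by linarith
          · -- near atom
            refine ⟨HR (1 / 4) (3 * r), ?_⟩
            have h3r : 0 < 3 * r := by linarith
            obtain ⟨hi1, hi2⟩ := HR_int hRAD h3r a
            have hcst : ∀ k : ℝ, IntegrableOn (fun _ : E2 => k) (ball x r) :=
              fun k => integrableOn_const hfin
            calc ∫ y in ball x r, |bb y - HR (1 / 4) (3 * r)|
                ≤ ∫ y in ball x r, HR (3 * r) ‖y - a‖ := by
                  refine integral_mono_ae ((hbig x r).sub (hcst _)).abs hi1.integrableOn ?_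
                  filter_upwards [ae_restrict_mem measurableSet_ball,
                    ae_restrict_of_ae (Measure.ae_ne volume a)] with y hy hya
                  rw [hloc y hy]
                  have h2 := hmem y hy
                  have hd2 : 0 < ‖y - a‖ := norm_pos_iff.2 (sub_ne_zero.2 hya)
                  have h4 : ‖y - a‖ ≤ ‖x - a‖ + ‖y - x‖ := by
                    have h5 : y - a = (x - a) + (y - x) := by abel
                    rw [h5]
                    exact norm_add_le _ _
                  refine (HR_lip (1 / 4) (by norm_num) hd2 h3r).trans ?_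
                  have h6 : 0 ≤ Real.log (3 * r / ‖y - a‖) := by
                    apply Real.log_nonneg
                    rw [one_le_div hd2]
                    linarith
                  rw [abs_of_nonneg h6]
                  exact le_max_right _ _
              _ ≤ ∫ y, HR (3 * r) ‖y - a‖ :=
                  setIntegral_le_integral hi1 (Eventually.of_forall fun y => HR_nonneg _ _)
              _ ≤ 2 * Real.pi * (3 * r) ^ 2 := hi2
              _ ≤ 800 * volume.real (ball x r) := by
                  rw [hv]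
                  nlinarith [mul_pos hpi (sq_pos_of_pos hr)]
    obtain ⟨c, hc⟩ := key
    have := avg_bound hv0 hfin (hbig x r) c 800 hc
    linarith

end

end Pool.Agent.Run7.h416.RSI
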