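import Pool.Agent.Run7.h325.RSI.Stm

/-!
# Piece BUMP of project RSI (helper325)
-/

set_option autoImplicit false

namespace Pool.Agent.Run7.h416.RSI

open MeasureTheory Filter Topology Metric
open Pool.Agent.Run7.h325.RSI

theorem hh_pos (m : ℕ) : 0 < hh m := by
  unfold hh
  positivity

theorem rho_pos (m : ℕ) : 0 < rho m := by
  unfold rho
  have := hh_pos m
  positivity

theorem rho'_pos (m : ℕ) : 0 < rho' m := by
  unfold rho'
  have := rho_pos m
  positivity

/-- the smooth profile, as a function of the square of the norm -/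
noncomputable def kk (a b s : ℝ) : ℝ :=
  s⁻¹ * (Real.smoothTransition ((s - a ^ 2) / (3 * a ^ 2)) *
    Real.smoothTransition ((b ^ 2 - s) / (3 * b ^ 2 / 4)))

theorem kk_smooth {a b : ℝ} (ha : 0 < a) : ContDiff ℝ (⊤ : ℕ∞) (kk a b) := by
  have hsm : ContDiff ℝ (⊤ : ℕ∞) (fun s : ℝ => Real.smoothTransition ((s - a ^ 2) / (3 * a ^ 2)) *
      Real.smoothTransition ((b ^ 2 - s) / (3 * b ^ 2 / 4))) := by
    apply ContDiff.mul
    · exact Real.smoothTransition.contDiff.comp (by fun_prop)
    · exact Real.smoothTransition.contDiff.comp (by fun_prop)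
  rw [contDiff_iff_contDiffAt]
  intro s
  rcases lt_or_ge s (a ^ 2) with hs | hs
  · have h1 : kk a b =ᶠ[𝓝 s] fun _ => (0 : ℝ) := by
      filter_upwards [gt_mem_nhds hs] with u hu
      unfold kk
      rw [Real.smoothTransition.zero_of_nonpos, zero_mul, mul_zero]
      apply div_nonpos_of_nonpos_of_nonneg
      · linarith
      · positivity
    exact contDiffAt_const.congr_of_eventuallyEq h1
  · have hs0 : s ≠ 0 := by
      have : 0 < a ^ 2 := by positivity
      linarith
    exact (contDiffAt_inv ℝ hs0).mul hsm.contDiffAt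

theorem t_BUMP : S_BUMP := by
  intro m hm
  set a := rho' m with ha'
  set b := rho m with hb'
  have ha : 0 < a := rho'_pos m
  have hb : 0 < b := rho_pos m
  refine ⟨fun x => r0 m ^ 2 * kk a b (‖x‖ ^ 2), ?_, ?_, ?_, ?_, ?_⟩
  · exact contDiff_const.mul ((kk_smooth ha).comp (contDiff_norm_sq ℝ))
  · intro x
    unfold kk
    have h1 := Real.smoothTransition.nonneg ((‖x‖ ^ 2 - a ^ 2) / (3 * a ^ 2))
    have h2 := Real.smoothTransition.nonneg ((b ^ 2 - ‖x‖ ^ 2) / (3 * b ^ 2 / 4))
    positivity
  · intro x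
    unfold kk
    have h1 := Real.smoothTransition.nonneg ((‖x‖ ^ 2 - a ^ 2) / (3 * a ^ 2))
    have h2 := Real.smoothTransition.nonneg ((b ^ 2 - ‖x‖ ^ 2) / (3 * b ^ 2 / 4))
    have h3 := Real.smoothTransition.le_one ((‖x‖ ^ 2 - a ^ 2) / (3 * a ^ 2))
    have h4 := Real.smoothTransition.le_one ((b ^ 2 - ‖x‖ ^ 2) / (3 * b ^ 2 / 4))
    have h5 : Real.smoothTransition ((‖x‖ ^ 2 - a ^ 2) / (3 * a ^ 2)) *
        Real.smoothTransition ((b ^ 2 - ‖x‖ ^ 2) / (3 * b ^ 2 / 4)) ≤ 1 := mul_le_one₀ h3 h2 h4
    rw [div_eq_mul_inv]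
    refine mul_le_mul_of_nonneg_left ?_ (by positivity)
    exact mul_le_of_le_one_right (by positivity) h5
  · intro x hx
    have hx1 : kk a b (‖x‖ ^ 2) ≠ 0 := right_ne_zero_of_mul hx
    unfold kk at hx1
    have hx2 := right_ne_zero_of_mul hx1
    have hx3 := left_ne_zero_of_mul hx2
    have hx4 := right_ne_zero_of_mul hx2
    have hn := norm_nonneg x
    constructor
    · by_contra hcon
      push Not at hcon
      apply hx3
      apply Real.smoothTransition.zero_of_nonpos
      apply div_nonpos_of_nonpos_of_nonneg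
      · nlinarith
      · positivity
    · by_contra hcon
      push Not at hcon
      apply hx4
      apply Real.smoothTransition.zero_of_nonpos
      apply div_nonpos_of_nonpos_of_nonneg
      · nlinarith
      · positivity
  · intro x h1 h2
    have hn := norm_nonneg x
    have h3 : Real.smoothTransition ((‖x‖ ^ 2 - a ^ 2) / (3 * a ^ 2)) = 1 := by
      apply Real.smoothTransition.one_of_one_le
      rw [one_le_div (by positivity)]
      nlinarith
    have h4 : Real.smoothTransition ((b ^ 2 - ‖x‖ ^ 2) / (3 * b ^ 2 / 4)) = 1 := by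
      apply Real.smoothTransition.one_of_one_le
      rw [one_le_div (by positivity)]
      nlinarith
    show r0 m ^ 2 * kk a b (‖x‖ ^ 2) = _
    unfold kk
    rw [h3, h4, mul_one, mul_one, div_eq_mul_inv]

end Pool.Agent.Run7.h416.RSI
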